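import Pool.Agent.Helper53.PT.AsmD
import Pool.Agent.Helper53.PT.B
import Pool.Agent.Helper90.PT.SQ
import Pool.Agent.Helper3.PT.EXP
import Pool.Agent.Helper35.PT.LN
import Pool.Agent.Helper35.PT.POW
import Pool.Agent.Helper55.PT.FLD
import Pool.Agent.Helper89.PT.IXP
import Pool.Agent.Helper8.PT.CHF
import Pool.Agent.Helper69.PT.UF
import Pool.Agent.Helper56.PT.INT
import Pool.Agent.Helper38.PT.TAY
import Pool.Agent.Helper83.PT.FST
import Pool.Agent.Helper61.PT.IVN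
import Pool.Agent.Helper58.PT.KAV
import Pool.Agent.Helper81.PT.LAM
import Pool.Agent.Helper61.PT.TNN
import Pool.Agent.Helper51.PT.TAUN
import Pool.Agent.Helper89.PT.REST2
import Pool.Agent.Helper16.PT.RSJ
import Pool.Agent.Helper13.PT.RST
import Pool.Agent.Helper27.PT.ENN
import Pool.Agent.Helper34.PT.ETL
import Pool.Agent.Helper79.PT.EOK
import Pool.Agent.Helper40.PT.E3
import Pool.Agent.Helper5.PT.XI
import Pool.Agent.Helper57.PT.KP
import Pool.Agent.Helper87.PT.KN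
import Pool.Agent.Helper82.PT.KOK
import Pool.Agent.Helper59.PT.PSM
import Pool.Agent.Helper89.PT.SMK
import Pool.Agent.Helper94.PT.AOK
import Pool.Agent.Helper59.PT.CLS
import Pool.Agent.Helper39.PT.KTAIL2

/-!
# MP_705522_gt, `q ∈ (2,4)`: soundness of the checker, all packets combined
-/

namespace Pool.Agent.Helper63.P705.Snd

open Pool.Agent.Helper53.PT

theorem sRST : GRST := Pool.Agent.Helper13.PT.gRST Pool.Agent.Helper51.PT.gTAUN Pool.Agent.Helper35.PT.gPOW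

theorem sKOK : GKOK := Pool.Agent.Helper82.PT.gKOK Pool.Agent.Helper3.PT.gEXP Pool.Agent.Helper35.PT.gPOW sRST
  Pool.Agent.Helper39.PT.gKTAIL2

theorem sEOK : GEOK := Pool.Agent.Helper79.PT.gEOK sRST Pool.Agent.Helper3.PT.gEXP

theorem sE3 : GE3 := Pool.Agent.Helper40.PT.gE3 Pool.Agent.Helper3.PT.gEXP

theorem sENN (hG : GGRID) : GENN :=
  Pool.Agent.Helper27.PT.gENN Pool.Agent.Helper89.PT.gREST2 Pool.Agent.Helper16.PT.gRSJ hG

theorem sKN (hG : GGRID) : GKN :=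
  Pool.Agent.Helper87.PT.gKN Pool.Agent.Helper89.PT.gREST2 Pool.Agent.Helper16.PT.gRSJ Pool.Agent.Helper3.PT.gEXP hG

theorem sAOK (hG : GGRID) (hE3N : GE3N) (hKT : GKT) : GAOK :=
  Pool.Agent.Helper94.PT.gAOK (sENN hG) Pool.Agent.Helper34.PT.gETL hE3N Pool.Agent.Helper5.PT.gXI
    Pool.Agent.Helper57.PT.gKP (sKN hG) hKT Pool.Agent.Helper59.PT.gPSM Pool.Agent.Helper3.PT.gEXP
    Pool.Agent.Helper90.PT.gSQ

theorem sCLS (hPOKS : GPOKS) : GCLS := Pool.Agent.Helper59.PT.gCLS sEOK sE3 sKOK hPOKS Pool.Agent.Helper3.PT.gEXP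

theorem sGT (hG : GGRID) (hTB : GTB) (hFAN : GFAN) (hSGN : GSGN) (hE3N : GE3N) (hKT : GKT) (hPOKS : GPOKS)
    {A : ℕ} {B : N.Base} {I : N.Ix} {cs : List N.Cl} {θ : ℝ} (hb : BaseFacts A B θ)
    (h : N.chk B I cs = true) : GT θ := by
  refine gt_of_chk (fun hb h => tf_of Pool.Agent.Helper90.PT.gSQ Pool.Agent.Helper3.PT.gEXP
    Pool.Agent.Helper35.PT.gLN Pool.Agent.Helper35.PT.gPOW Pool.Agent.Helper55.PT.gFLD hG hTB
    Pool.Agent.Helper89.PT.gIXP Pool.Agent.Helper8.PT.gCHF Pool.Agent.Helper69.PT.gUF hFAN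
    Pool.Agent.Helper56.PT.gINT Pool.Agent.Helper38.PT.gTAY Pool.Agent.Helper83.PT.gFST
    Pool.Agent.Helper61.PT.gIVN Pool.Agent.Helper58.PT.gKAV Pool.Agent.Helper81.PT.gLAM hSGN
    Pool.Agent.Helper61.PT.gTNN hb h) ?_ hb h
  exact sCLS hPOKS (sAOK hG hE3N hKT) Pool.Agent.Helper89.PT.gSMK

end Pool.Agent.Helper63.P705.Snd
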